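import Mathlib
import Pool.Agent.P8H68.DO.Fin
import Pool.Agent.P8H68.DO.Pow

/-!
# The maximal ball partial sum operator along dispersive orbits

Let `Φ : ℝⁿ → ℝ` be a dispersive phase of order `γ > 0`: measurable and, for large `|ξ|`,
differentiable with `|∇Φ(ξ)|` comparable to `|ξ|^γ` and `∇Φ` slowly varying; for instance
`Φ(ξ) = |ξ|^a` with `a > 1`, `γ = a - 1` (`a = 2` is the Schrödinger group). Let `f ∈ L²(ℝⁿ)` with
the Fourier transform `G`. Then for all times `t` outside a set of Hausdorff dimension zero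
(depending on `f`), the function `g = e^{itΦ(D)} f`, whose Fourier transform is `e^{itΦ} G`, has a
locally square integrable maximal function `sup_R |S_R g|` and `S_R g(x) → g(x)` as `R → ∞` for
almost every `x`, where `S_R` are the partial sums over balls.
-/

set_option autoImplicit false

open MeasureTheory Metric Filter Topology
open scoped ENNReal NNReal RealInnerProductSpace

namespace Pool.Agent.Results.MP_ee701d_an.DispersiveOrbits

/-- Euclidean space -/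
abbrev E (n : ℕ) := EuclideanSpace ℝ (Fin n)

/-- the ball partial sum `S_R f(x)` of the function `f` with Fourier transform `G` -/
noncomputable def S {n : ℕ} (G : E n → ℂ) (R : ℝ) (x : E n) : ℂ :=
  ∫ ξ in closedBall (0 : E n) R, Complex.exp (2 * Real.pi * Complex.I * ((⟪x, ξ⟫ : ℝ) : ℂ)) * G ξ

/-- the maximal function `sup_R |S_R f(x)|` of the function `f` with Fourier transform `G` -/
noncomputable def maxS {n : ℕ} (G : E n → ℂ) (x : E n) : ℝ≥0∞ := ⨆ R : ℝ, ‖S G R x‖ₑ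

/-- `Φ` is a dispersive phase of order `γ`: it is measurable and, for large `|ξ|`, it is
differentiable, its gradient has size comparable to `|ξ|^γ`, and it varies slowly -/
structure Dispersive {n : ℕ} (γ : ℝ) (Φ : E n → ℝ) : Prop where
  meas : Measurable Φ
  diff : ∃ r : ℝ, ∀ ξ, r ≤ ‖ξ‖ → DifferentiableAt ℝ Φ ξ
  size : ∃ c C r : ℝ, 0 < c ∧ ∀ ξ, r ≤ ‖ξ‖ →
    c * ‖ξ‖ ^ γ ≤ ‖fderiv ℝ Φ ξ‖ ∧ ‖fderiv ℝ Φ ξ‖ ≤ C * ‖ξ‖ ^ γ
  slow : ∀ ε > 0, ∃ δ > 0, ∃ r : ℝ, ∀ ξ η : E n, r ≤ ‖ξ‖ → ‖ξ - η‖ ≤ δ →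
    ‖fderiv ℝ Φ ξ - fderiv ℝ Φ η‖ ≤ ε * ‖ξ‖ ^ γ

/-- the Fourier transform of `e^{itΦ(D)} f`, where `G` is the Fourier transform of `f` -/
noncomputable def orbit {n : ℕ} (Φ : E n → ℝ) (t : ℝ) (G : E n → ℂ) (ξ : E n) : ℂ :=
  Complex.exp (((t * Φ ξ : ℝ) : ℂ) * Complex.I) * G ξ

/-- the powers `|ξ|^a`, `a > 1`, are dispersive phases -/
theorem dispersive_norm_rpow (n : ℕ) {a : ℝ} (ha : 1 < a) :
    Dispersive (a - 1) fun ξ : E n => ‖ξ‖ ^ a := by
  have ha0 : 0 < a := by linarith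
  refine ⟨measurable_norm.pow_const _, ⟨0, fun ξ _ => differentiable_norm_rpow ha ξ⟩,
    ⟨a, a, 0, ha0, fun ξ _ => ?_⟩, fun ε hε => ⟨1, one_pos, ?_⟩⟩
  · rw [norm_fderiv_norm_id_rpow ξ ha]
    exact ⟨le_rfl, le_rfl⟩
  · exact Pool.Agent.P8H68.DO.pow_slow ha hε

theorem result {n : ℕ} (hn : 1 ≤ n) {γ : ℝ} (hγ : 0 < γ) (Φ : E n → ℝ) (hD : Dispersive γ Φ)
    (G : E n → ℂ) (hG : MemLp G 2 volume) :
    ∃ B : Set ℝ, dimH B = 0 ∧ ∀ t ∉ B,
      (∀ ρ : ℝ, ∫⁻ x in closedBall (0 : E n) ρ, maxS (orbit Φ t G) x ^ 2 < ⊤) ∧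
      ∃ g : E n → ℂ, MemLp g 2 volume ∧
        Tendsto (fun R : ℝ => eLpNorm (fun x => S (orbit Φ t G) R x - g x) 2 volume) atTop (𝓝 0) ∧
        ∀ᵐ x : E n, Tendsto (fun R : ℝ => S (orbit Φ t G) R x) atTop (𝓝 (g x)) := by
  obtain ⟨m, rfl⟩ : ∃ m, n = m + 1 := ⟨n - 1, by omega⟩
  obtain ⟨r₁, hdiff⟩ := hD.diff
  obtain ⟨c, C, r₂, hc, hsize⟩ := hD.size
  obtain ⟨δ, hδ, r₃, hslow⟩ := hD.slow (c / (2 * ((m + 1 : ℕ) : ℝ))) (by positivity)
  set F : E (m + 1) → ℂ := hG.aestronglyMeasurable.mk G with hF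
  have hGF : G =ᵐ[volume] F := hG.aestronglyMeasurable.ae_eq_mk
  have hF2 : MemLp F 2 := (memLp_congr_ae hGF).1 hG
  have hFm : Measurable F := hG.aestronglyMeasurable.stronglyMeasurable_mk.measurable
  obtain ⟨B, hB, hgood⟩ := Pool.Agent.P8H68.DO.disp_good (Φ := Φ) (γ := γ) (c := c) (C := max C 1)
    (r := max (max r₁ r₂) r₃) (δ := δ) hD.meas hγ hc (le_max_right _ _) hδ
    (fun ξ hξ => hdiff ξ (((le_max_left _ _).trans (le_max_left _ _)).trans hξ))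
    (fun ξ hξ => by
      obtain ⟨h1, h2⟩ := hsize ξ (((le_max_right _ _).trans (le_max_left _ _)).trans hξ)
      refine ⟨h1, h2.trans ?_⟩
      exact mul_le_mul_of_nonneg_right (le_max_left _ _) (by positivity))
    (fun ξ η hξ h => hslow ξ η ((le_max_right _ _).trans hξ) h) hFm hF2
  refine ⟨B, hB, fun t ht => ?_⟩
  have hmem := Pool.Agent.P8H68.DO.evo_memLp hD.meas t hF2
  have hS : ∀ (R : ℝ) (x : E (m + 1)), S (orbit Φ t G) R x =
      Pool.Agent.Helper93.Sph.ps (Pool.Agent.P8H68.DO.evo Φ t F) R x := by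
    intro R x
    refine integral_congr_ae (ae_restrict_of_ae ?_)
    filter_upwards [hGF] with ξ hξ
    rw [orbit, hξ]
    rfl
  obtain ⟨hg1, hg2⟩ := hgood t ht
  constructor
  · intro ρ
    obtain ⟨N, hN⟩ := exists_nat_ge ρ
    obtain ⟨M, _, hM, hfin⟩ := hg1 N
    refine lt_of_le_of_lt ((lintegral_mono fun x => ?_).trans
      (lintegral_mono_set (closedBall_subset_closedBall hN))) hfin
    have h1 : ∀ R : ℝ, ‖S (orbit Φ t G) R x‖ₑ ≤ (M x) ^ ((2 : ℝ)⁻¹) := by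
      intro R
      rw [hS, ENNReal.le_rpow_inv_iff (by norm_num)]
      have := hM x R
      exact_mod_cast this
    have h2 := iSup_le h1
    rw [maxS]
    calc (⨆ R : ℝ, ‖S (orbit Φ t G) R x‖ₑ) ^ 2 ≤ ((M x) ^ ((2 : ℝ)⁻¹)) ^ 2 := pow_le_pow_left' h2 2
      _ = M x := by
          rw [← ENNReal.rpow_natCast, ← ENNReal.rpow_mul]
          norm_num
  · obtain ⟨g, hg, hgL, hglim⟩ := Pool.Agent.P8H68.DO.lim_fun hmem
    refine ⟨g, hg, by simp_rw [hS]; exact hgL, ?_⟩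
    obtain ⟨L, hL⟩ : ∃ L : E (m + 1) → ℂ, ∀ᵐ x : E (m + 1),
        Tendsto (fun R : ℝ => Pool.Agent.Helper93.Sph.ps (Pool.Agent.P8H68.DO.evo Φ t F) R x) atTop
          (𝓝 (L x)) := by
      classical
      refine ⟨fun x => if h : ∃ L : ℂ, Tendsto (fun R : ℝ =>
        Pool.Agent.Helper93.Sph.ps (Pool.Agent.P8H68.DO.evo Φ t F) R x) atTop (𝓝 L) then h.choose
        else 0, ?_⟩
      filter_upwards [hg2] with x hx
      rw [dif_pos hx]
      exact hx.choose_spec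
    filter_upwards [hL, hglim L hL] with x h1 h2
    simp_rw [hS]
    rw [← h2]
    exact h1

end Pool.Agent.Results.MP_ee701d_an.DispersiveOrbits
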