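import Mathlib
import Pool.Agent.P8H75.SR.M

/-!
# The maximal inequality for ball partial sums averaged over measures of a given gauge

Let `h 0, h 1, ...` be nonnegative numbers with `B = ∑ √(h j)` finite (for example
`h j = (1 + j) ^ (-2 - ε)`). For every `f ∈ L²(ℝⁿ)` the square of the maximal function

  `x ↦ sup_ν (∫ |S_R f(x)|² dν(R)) ^ (1/2)`,

the supremum over all measures `ν` on `(0, ∞)` of total mass at most `h 0` with
`ν [a, (1 + 2⁻ʲ) a] ≤ h j` for all `a > 0` and `j`, has a majorant with integral at most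
`C (1 + B)² ‖f‖₂²`, `C = C(n)`. Point masses (all `h j = 1`) give the full maximal operator.
-/

set_option autoImplicit false

open MeasureTheory Metric
open scoped ENNReal NNReal RealInnerProductSpace

namespace Pool.Agent.Results.MP_ee701d_an.MeasureMaximal

/-- Euclidean space -/
abbrev E (n : ℕ) := EuclideanSpace ℝ (Fin n)

/-- the ball partial sum `S_R f(x)` of the function `f` with Fourier transform `G` -/
noncomputable def S {n : ℕ} (G : E n → ℂ) (R : ℝ) (x : E n) : ℂ :=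
  ∫ ξ in closedBall (0 : E n) R, Complex.exp (2 * Real.pi * Complex.I * ((⟪x, ξ⟫ : ℝ) : ℂ)) * G ξ

/-- the measures on `(0, ∞)` of total mass at most `h 0` which give to every interval
`[a, (1 + 2⁻ʲ) a]` at most the mass `h j` -/
def gauged (h : ℕ → ℝ≥0) : Set (Measure ℝ) :=
  {ν | ν (Set.Iic 0) = 0 ∧ ν Set.univ ≤ h 0 ∧
    ∀ (j : ℕ) (a : ℝ), 0 < a → ν (Set.Icc a ((1 + 1 / 2 ^ j) * a)) ≤ h j}

theorem result {n : ℕ} (hn : 1 ≤ n) : ∃ C : ℝ≥0, ∀ (h : ℕ → ℝ≥0) (G : E n → ℂ),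
    MemLp G 2 volume → ∃ V : E n → ℝ≥0∞, Measurable V ∧
      ∫⁻ x, V x ≤ C * (1 + ∑' j, (NNReal.sqrt (h j) : ℝ≥0∞)) ^ 2 * ∫⁻ ξ, ‖G ξ‖ₑ ^ 2 ∧
      ∀ x : E n, ∀ ν ∈ gauged h, ∫⁻ R, ‖S G R x‖ₑ ^ 2 ∂ν ≤ V x := by
  obtain ⟨m, rfl⟩ : ∃ m, n = m + 1 := ⟨n - 1, by omega⟩
  have hC : (2 + 2 * Pool.Agent.P8H75.SR.CL m : ℝ≥0∞) ≠ ⊤ :=
    (ENNReal.add_lt_top.2 ⟨by norm_num, ENNReal.mul_lt_top (by norm_num)
      (Pool.Agent.P8H75.SR.CL_lt m)⟩).ne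
  refine ⟨(2 + 2 * Pool.Agent.P8H75.SR.CL m).toNNReal, fun h G hG =>
    ⟨Pool.Agent.P8H75.SR.Vm h G, Pool.Agent.P8H75.SR.Vm_meas h hG, ?_, ?_⟩⟩
  · rw [ENNReal.coe_toNNReal hC]
    exact Pool.Agent.P8H75.SR.Vm_int h hG
  · intro x ν hν
    exact Pool.Agent.P8H75.SR.max_ineq h hG x ν hν.1 hν.2.1 hν.2.2

end Pool.Agent.Results.MP_ee701d_an.MeasureMaximal
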