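import Mathlib
import Pool.Agent.P8H75.SR.U

/-!
# Averages of the ball partial sums over few, well spread radii

Let `f ∈ L²(ℝⁿ)` and let `h k j ≥ 0` be numbers with `∑_{j ≤ k} √(h k j) ≤ B` for all `k`, for
instance `h k j = D (2⁻ʲ + (1 + k)⁻²)`. For almost every `x`, with `L = lim S_R f(x)` along
`R = 2ᵏ`, the integrals `∫ |S_R f(x) - L|² dν(R)` over `[2ᵏ, 2ᵏ⁺¹)` tend to zero as `k → ∞`,
uniformly over all measures `ν` which give at most the mass `h k j` to every interval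
`[a, a + 2ᵏ⁻ʲ]` with `a ≥ 2ᵏ` and `0 ≤ j ≤ k`. Only intervals of length at least one are tested,
so `ν` may be the normalized counting measure of a finite set of radii.
-/

set_option autoImplicit false

open MeasureTheory Metric Filter Topology
open scoped ENNReal NNReal RealInnerProductSpace

namespace Pool.Agent.Results.MP_ee701d_an.SpreadRadii

/-- Euclidean space -/
abbrev E (n : ℕ) := EuclideanSpace ℝ (Fin n)

/-- the ball partial sum `S_R f(x)` of the function `f` with Fourier transform `G` -/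
noncomputable def S {n : ℕ} (G : E n → ℂ) (R : ℝ) (x : E n) : ℂ :=
  ∫ ξ in closedBall (0 : E n) R, Complex.exp (2 * Real.pi * Complex.I * ((⟪x, ξ⟫ : ℝ) : ℂ)) * G ξ

theorem result {n : ℕ} (hn : 1 ≤ n) (h : ℕ → ℕ → ℝ≥0) (B : ℝ≥0)
    (hh : ∀ k, ∑ j ∈ Finset.range (k + 1), NNReal.sqrt (h k j) ≤ B)
    (G : E n → ℂ) (hG : MemLp G 2 volume) :
    ∀ᵐ x : E n, ∃ L : ℂ, Tendsto (fun k : ℕ => S G ((2:ℝ) ^ k) x) atTop (𝓝 L) ∧
      ∀ ε : ℝ≥0∞, 0 < ε → ∀ᶠ k : ℕ in atTop, ∀ ν : Measure ℝ,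
        (∀ j ≤ k, ∀ a : ℝ, (2:ℝ) ^ k ≤ a → ν (Set.Icc a (a + 2 ^ k / 2 ^ j)) ≤ h k j) →
        ∫⁻ R in Set.Ico ((2:ℝ) ^ k) (2 * 2 ^ k), ‖S G R x - L‖ₑ ^ 2 ∂ν ≤ ε := by
  obtain ⟨m, rfl⟩ : ∃ m, n = m + 1 := ⟨n - 1, by omega⟩
  exact Pool.Agent.P8H75.SR.spread_ae hG h hh

end Pool.Agent.Results.MP_ee701d_an.SpreadRadii
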