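import Mathlib
import Pool.Agent.P8H75.SR.Q

/-!
# Almost everywhere convergence of the ball partial sums outside thin sets of radii

Let `f ∈ L²(ℝⁿ)`. Let `g k j ≥ 0` (`0 ≤ j ≤ k`) be numbers with `∑_{j ≤ k} √(g k j) ≤ B` for all
`k`, for instance `g k j = (1 + k)⁻² + 2^(- s j)` with `s > 0`. For almost every `x` there are
intervals of radii, each of the form
`[2ᵏ (1 + c / 2ʲ), 2ᵏ (1 + (c + 1) / 2ʲ))` with `j ≤ k` and `c < 2ʲ` (so of length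
`2ᵏ⁻ʲ ≥ 1`), with `∑ g k j < ∞` over the chosen intervals, such that `S_R f(x)` converges as
`R → ∞` outside the union of these intervals, to the limit of `S_R f(x)` along `R = 2ᵏ`.
-/

set_option autoImplicit false

open MeasureTheory Metric Filter Topology
open scoped ENNReal NNReal RealInnerProductSpace

namespace Pool.Agent.Results.MP_ee701d_an.ThinExceptionalRadii

/-- Euclidean space -/
abbrev E (n : ℕ) := EuclideanSpace ℝ (Fin n)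

/-- the ball partial sum `S_R f(x)` of the function `f` with Fourier transform `G` -/
noncomputable def S {n : ℕ} (G : E n → ℂ) (R : ℝ) (x : E n) : ℂ :=
  ∫ ξ in closedBall (0 : E n) R, Complex.exp (2 * Real.pi * Complex.I * ((⟪x, ξ⟫ : ℝ) : ℂ)) * G ξ

/-- the interval of radii `[2ᵏ (1 + c / 2ʲ), 2ᵏ (1 + (c + 1) / 2ʲ))`, where `u = (k, j, c)` -/
def I (u : ℕ × ℕ × ℕ) : Set ℝ :=
  Set.Ico ((2:ℝ) ^ u.1 * (1 + (u.2.2 : ℝ) / 2 ^ u.2.1))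
    ((2:ℝ) ^ u.1 * (1 + ((u.2.2 + 1 : ℕ) : ℝ) / 2 ^ u.2.1))

theorem result {n : ℕ} (hn : 1 ≤ n) (g : ℕ → ℕ → ℝ≥0) (B : ℝ≥0)
    (hg : ∀ k, ∑ j ∈ Finset.range (k + 1), NNReal.sqrt (g k j) ≤ B)
    (G : E n → ℂ) (hG : MemLp G 2 volume) :
    ∀ᵐ x : E n, ∃ L : ℂ, Tendsto (fun k : ℕ => S G ((2:ℝ) ^ k) x) atTop (𝓝 L) ∧
      ∃ A : Set (ℕ × ℕ × ℕ), (∀ u ∈ A, u.2.1 ≤ u.1 ∧ u.2.2 < 2 ^ u.2.1) ∧
        ∑' u : A, (g u.1.1 u.1.2.1 : ℝ≥0∞) < ∞ ∧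
        Tendsto (fun R : ℝ => S G R x) (atTop ⊓ 𝓟 (⋃ u ∈ A, I u)ᶜ) (𝓝 L) := by
  obtain ⟨m, rfl⟩ : ∃ m, n = m + 1 := ⟨n - 1, by omega⟩
  exact Pool.Agent.P8H75.SR.thin_ae hG g hg

end Pool.Agent.Results.MP_ee701d_an.ThinExceptionalRadii
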